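import Pool.Agent.Lib.MP_7b6720_al.INV.Iface

set_option autoImplicit false

namespace Pool.Agent.SymDiam.H52

open Equiv Finset

theorem ball_mul {n : ℕ} {A : Set (Perm (Fin n))} {r s : ℕ} {x y : Perm (Fin n)}
    (hx : InBall A r x) (hy : InBall A s y) : InBall A (r + s) (x * y) := by
  obtain ⟨l, hl, hA, rfl⟩ := hx
  obtain ⟨m, hm, hB, rfl⟩ := hy
  refine ⟨l ++ m, ?_, ?_, by simp⟩
  · rw [List.length_append]; omega
  · intro y hy
    rw [List.mem_append] at hy
    rcases hy with hy | hy
    · exact hA y hy
    · exact hB y hy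

theorem ball_inv {n : ℕ} {A : Set (Perm (Fin n))} {r : ℕ} {x : Perm (Fin n)}
    (hx : InBall A r x) : InBall A r x⁻¹ := by
  obtain ⟨l, hl, hA, rfl⟩ := hx
  refine ⟨(l.map fun x => x⁻¹).reverse, by simpa using hl, ?_, ?_⟩
  · intro y hy
    rw [List.mem_reverse, List.mem_map] at hy
    obtain ⟨z, hz, rfl⟩ := hy
    rcases hA z hz with h | h
    · right; rwa [inv_inv]
    · left; exact h
  · rw [List.prod_inv_reverse]

theorem ball_mono {n : ℕ} {A : Set (Perm (Fin n))} {r s : ℕ} {x : Perm (Fin n)}
    (hx : InBall A r x) (hrs : r ≤ s) : InBall A s x := by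
  obtain ⟨l, hl, hA, hp⟩ := hx
  exact ⟨l, le_trans hl hrs, hA, hp⟩

theorem iter (hCon : ConS) : IterS := by
  intro n hn A R W hW hball
  have key : ∀ s : ℕ, ∀ (z : Perm (Fin n)) (l : ℕ), z.support.card = s →
    z ≠ 1 → InBall A l z → 100 * z.support.card ≤ n →
      ∃ z' : Perm (Fin n), z' ≠ 1 ∧ 4 * z'.support.card ^ 2 ≤ n ∧
        InBall A (z.support.card * (l + 2 * R)) z' := by
    intro s
    induction s using Nat.strong_induction_on with
    | _ s ih =>
      intro z l hs hz hl h100
      have hspos : 1 ≤ z.support.card := by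
        rw [Nat.one_le_iff_ne_zero, Ne, Finset.card_eq_zero, Perm.support_eq_empty_iff]
        exact hz
      by_cases h4 : 4 * z.support.card ^ 2 ≤ n
      · refine ⟨z, hz, h4, ball_mono hl ?_⟩
        nlinarith
      · push Not at h4
        have hs150 : 150 < s := by
          rw [hs] at h4
          by_contra hcon
          push Not at hcon
          have : s ^ 2 ≤ 150 ^ 2 := Nat.pow_le_pow_left hcon 2
          omega
        obtain ⟨h, hWh, hne, hcard⟩ := hCon n (by omega) W hW z hz (by omega)
        rw [hs] at hcard
        have hnpos : (0 : ℝ) < n := by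
          have : 0 < n := by omega
          exact_mod_cast this
        have h100' : (100 : ℝ) * s ≤ n := by
          have : 100 * s ≤ n := by rw [← hs]; exact h100
          exact_mod_cast this
        have hs' : (150 : ℝ) < s := by exact_mod_cast hs150
        have hdiv : 4 * (s : ℝ) ^ 2 / (n : ℝ) ≤ s / 25 := by
          rw [div_le_iff₀ hnpos]
          nlinarith
        have hs1 : ((cm z h).support.card : ℝ) * 10 ≤ s := by linarith
        have hs1' : (cm z h).support.card * 10 ≤ s := by exact_mod_cast hs1
        have hcj : InBall A (l + 2 * R) (cj z h) := by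
          unfold cj
          exact ball_mono (ball_mul (ball_mul (ball_inv (hball h hWh)) hl) (hball h hWh)) (by omega)
        have hcm : InBall A (4 * l + 4 * R) (cm z h) := by
          unfold cm
          exact ball_mono (ball_mul (ball_mul (ball_mul hl hcj) (ball_inv hl)) (ball_inv hcj)) (by omega)
        obtain ⟨z', hz', h4', hb'⟩ := ih (cm z h).support.card (by omega) (cm z h)
          (4 * l + 4 * R) rfl hne hcm (by omega)
        refine ⟨z', hz', h4', ball_mono hb' ?_⟩
        rw [hs]
        calc (cm z h).support.card * (4 * l + 4 * R + 2 * R)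
            ≤ (cm z h).support.card * (10 * (l + 2 * R)) := by
              apply Nat.mul_le_mul_left; omega
          _ = ((cm z h).support.card * 10) * (l + 2 * R) := by ring
          _ ≤ s * (l + 2 * R) := Nat.mul_le_mul_right _ hs1'
  intro z l hz hl h100
  exact key _ z l rfl hz hl h100

end Pool.Agent.SymDiam.H52
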