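import Pool.Agent.Lib.MP_7b6720_al.INV.Iface

set_option autoImplicit false

namespace Pool.Agent.SymDiam.H52

open Equiv Finset

theorem exists_K (ε : ℝ) (hε : 0 < ε) :
    ∃ K : ℕ, 1 ≤ K ∧ (max (1 - ε) 0) ^ (2 * K - 1) < 1 / 3200 := by
  have h0 : 0 ≤ max (1 - ε) 0 := le_max_right _ _
  have h1 : max (1 - ε) 0 < 1 := by
    apply max_lt <;> linarith
  obtain ⟨m, hm⟩ := exists_pow_lt_of_lt_one (show (0:ℝ) < 1/3200 by norm_num) h1
  refine ⟨m + 1, by omega, lt_of_le_of_lt ?_ hm⟩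
  exact pow_le_pow_of_le_one h0 h1.le (by omega)

theorem descFactorial_lower (n a b : ℕ) (h : a + b ≤ n) :
    ((n : ℝ) - (a + b : ℕ)) ^ b * (n.descFactorial a : ℝ) ≤ (n.descFactorial (a + b) : ℝ) := by
  have e : n.descFactorial (a + b) = (n - a).descFactorial b * n.descFactorial a := by
    induction b with
    | zero => simp
    | succ b ih =>
      rw [← Nat.add_assoc, Nat.descFactorial_succ, ih (by omega), Nat.descFactorial_succ]
      rw [show n - (a + b) = n - a - b by omega]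
      ring
  rw [e]
  push_cast
  apply mul_le_mul_of_nonneg_right _ (by positivity)
  have h2 := Nat.pow_sub_le_descFactorial (n - a) b
  have h3 : (((n - a + 1 - b) ^ b : ℕ) : ℝ) ≤ ((n - a).descFactorial b : ℝ) := by
    exact_mod_cast h2
  refine le_trans ?_ h3
  push_cast
  have h4 : (n : ℝ) - ((a : ℝ) + (b : ℝ)) ≤ ((n - a + 1 - b : ℕ) : ℝ) := by
    have h5 : n ≤ (n - a + 1 - b) + (a + b) := by omega
    have h6 : (n : ℝ) ≤ ((n - a + 1 - b : ℕ) : ℝ) + ((a : ℝ) + (b : ℝ)) := by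
      exact_mod_cast h5
    linarith
  apply pow_le_pow_left₀ _ h4
  have : ((a + b : ℕ) : ℝ) ≤ n := by exact_mod_cast h
  push_cast at this
  linarith

theorem cj_sq {n : ℕ} (g h : Perm (Fin n)) (hg : g * g = 1) : cj g h * cj g h = 1 := by
  unfold cj
  calc h⁻¹ * g * h * (h⁻¹ * g * h) = h⁻¹ * (g * g) * h := by group
    _ = 1 := by rw [hg]; group

theorem support_bound (hd : DihS) (n : ℕ) (g b : Perm (Fin n)) (hg : g * g = 1)
    (hb : b * b = 1) (K : ℕ) (hK : 1 ≤ K) :
    ((g * b) ^ (4 * K).factorial).support.card ≤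
      2 * (univ.filter fun x => Dist g b (2 * K) x).card := by
  have hsub : ((g * b) ^ (4 * K).factorial).support ⊆
      (univ.filter fun x => Dist g b (2 * K) x) ∪
        (univ.filter fun x => Dist g b (2 * K) (g x)) := by
    intro x hx
    rw [Perm.mem_support] at hx
    rw [mem_union, mem_filter, mem_filter]
    by_contra hcon
    push Not at hcon
    exact hx (hd n g b hg hb K x hK (fun h => hcon.1 (mem_univ _) h)
      (fun h => hcon.2 (mem_univ _) h))
  have hcard : (univ.filter fun x => Dist g b (2 * K) (g x)).card =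
      (univ.filter fun x => Dist g b (2 * K) x).card := by
    apply Finset.card_bij (fun x _ => g x)
    · intro x hx
      rw [mem_filter] at hx ⊢
      exact ⟨mem_univ _, hx.2⟩
    · intro x _ y _ hxy
      exact g.injective hxy
    · intro y hy
      rw [mem_filter] at hy
      refine ⟨g y, ?_, ?_⟩
      · rw [mem_filter]
        refine ⟨mem_univ _, ?_⟩
        have : g (g y) = y := by
          have := congrArg (fun p : Perm (Fin n) => p y) hg
          simpa using this
        rw [this]; exact hy.2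
      · have := congrArg (fun p : Perm (Fin n) => p y) hg
        simpa using this
  calc ((g * b) ^ (4 * K).factorial).support.card ≤ _ := card_le_card hsub
    _ ≤ _ := card_union_le _ _
    _ = _ := by rw [hcard]; ring

theorem final_ineq (n k' K s : ℕ) (δ w : ℝ) (hδ0 : 0 ≤ δ) (hK : 1 ≤ K)
    (hδ : δ ^ (2 * K - 1) < 1 / 3200)
    (hs : (s : ℝ) ≤ δ * n) (hn1 : 800 * K * k' + 4 * K * (k' + 2 * K) + 2 ≤ n)
    (hw : (1 - 1 / (n : ℝ)) / (n.descFactorial k' : ℝ) ≤ w)
    (hmain : (n : ℝ) / 200 * w ≤ w * (2 * (K : ℝ) * (k' : ℝ)) +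
        (n : ℝ) ^ 2 * (s : ℝ) ^ (2 * K - 1) *
          ((1 + 1 / (n : ℝ)) / (n.descFactorial (k' + 2 * K) : ℝ))) : False := by
  have hn2 : 2 ≤ n := by omega
  have hnpos : (0 : ℝ) < n := by
    have : 0 < n := by omega
    exact_mod_cast this
  have hn2' : (2 : ℝ) ≤ n := by exact_mod_cast hn2
  have hkn : k' + 2 * K ≤ n := by nlinarith [Nat.zero_le (800 * K * k')]
  have h1n : 1 / (n : ℝ) ≤ 1 / 2 := by
    apply one_div_le_one_div_of_le <;> linarith
  have hd1 : (0 : ℝ) < (n.descFactorial k' : ℝ) := by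
    have : 0 < n.descFactorial k' := Nat.descFactorial_pos.mpr (by omega)
    exact_mod_cast this
  have hd2 : (0 : ℝ) < (n.descFactorial (k' + 2 * K) : ℝ) := by
    have : 0 < n.descFactorial (k' + 2 * K) := Nat.descFactorial_pos.mpr hkn
    exact_mod_cast this
  have hw2 : (1 / 2) / (n.descFactorial k' : ℝ) ≤ w := by
    refine le_trans ?_ hw
    apply div_le_div_of_nonneg_right _ hd1.le
    linarith
  have hnk : 800 * (K : ℝ) * k' ≤ n := by
    have : 800 * K * k' ≤ n := by omega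
    exact_mod_cast this
  have hwpos : 0 < w := lt_of_lt_of_le (by positivity) hw2
  have h3 : (n : ℝ) / 400 * w ≤ (n : ℝ) ^ 2 * (s : ℝ) ^ (2 * K - 1) *
          ((1 + 1 / (n : ℝ)) / (n.descFactorial (k' + 2 * K) : ℝ)) := by
    nlinarith
  have h4 : (n : ℝ) / 400 * ((1 / 2) / (n.descFactorial k' : ℝ)) ≤
      (n : ℝ) ^ 2 * (s : ℝ) ^ (2 * K - 1) * (2 / (n.descFactorial (k' + 2 * K) : ℝ)) := by
    calc (n : ℝ) / 400 * ((1 / 2) / (n.descFactorial k' : ℝ)) ≤ (n : ℝ) / 400 * w := by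
          apply mul_le_mul_of_nonneg_left hw2 (by positivity)
      _ ≤ _ := h3
      _ ≤ _ := by
          apply mul_le_mul_of_nonneg_left _ (by positivity)
          apply div_le_div_of_nonneg_right _ hd2.le
          linarith
  have h5 := descFactorial_lower n k' (2 * K) hkn
  -- (n - k)^(2K) ≤ D2 / D1
  set D1 := (n.descFactorial k' : ℝ) with hD1
  set D2 := (n.descFactorial (k' + 2 * K) : ℝ) with hD2
  have h6 : (n : ℝ) * D2 ≤ 1600 * ((n : ℝ) ^ 2 * (s : ℝ) ^ (2 * K - 1)) * D1 := by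
    have e1 : (n : ℝ) / 400 * ((1 / 2) / D1) = (n * D2) / (800 * D1 * D2) := by
      field_simp
      norm_num
    have e2 : (n : ℝ) ^ 2 * (s : ℝ) ^ (2 * K - 1) * (2 / D2) =
        (1600 * ((n : ℝ) ^ 2 * (s : ℝ) ^ (2 * K - 1)) * D1) / (800 * D1 * D2) := by
      field_simp
      ring
    rw [e1, e2] at h4
    exact (div_le_div_iff_of_pos_right (by positivity)).mp h4
  have h7 : (n : ℝ) * (((n : ℝ) - (k' + 2 * K : ℕ)) ^ (2 * K)) ≤
      1600 * ((n : ℝ) ^ 2 * (s : ℝ) ^ (2 * K - 1)) := by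
    have : (n : ℝ) * (((n : ℝ) - (k' + 2 * K : ℕ)) ^ (2 * K)) * D1 ≤
      1600 * ((n : ℝ) ^ 2 * (s : ℝ) ^ (2 * K - 1)) * D1 := by
      calc (n : ℝ) * (((n : ℝ) - (k' + 2 * K : ℕ)) ^ (2 * K)) * D1 =
          n * ((((n : ℝ) - (k' + 2 * K : ℕ)) ^ (2 * K)) * D1) := by ring
        _ ≤ n * D2 := by apply mul_le_mul_of_nonneg_left h5 hnpos.le
        _ ≤ _ := h6
    exact le_of_mul_le_mul_right this hd1
  have h8 : (s : ℝ) ^ (2 * K - 1) ≤ δ ^ (2 * K - 1) * (n : ℝ) ^ (2 * K - 1) := by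
    rw [← mul_pow]
    exact pow_le_pow_left₀ (Nat.cast_nonneg _) hs _
  have h9 : (n : ℝ) ^ 2 * (n : ℝ) ^ (2 * K - 1) = n * (n : ℝ) ^ (2 * K) := by
    rw [← pow_add, ← pow_succ']
    congr 1
    omega
  have h10 : (n : ℝ) * (((n : ℝ) - (k' + 2 * K : ℕ)) ^ (2 * K)) ≤
      1600 * δ ^ (2 * K - 1) * (n * (n : ℝ) ^ (2 * K)) := by
    rw [← h9]
    calc _ ≤ _ := h7
      _ ≤ 1600 * ((n : ℝ) ^ 2 * (δ ^ (2 * K - 1) * (n : ℝ) ^ (2 * K - 1))) := by
          apply mul_le_mul_of_nonneg_left _ (by norm_num)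
          apply mul_le_mul_of_nonneg_left h8 (by positivity)
      _ = _ := by ring
  have h11 : (((n : ℝ) - (k' + 2 * K : ℕ)) ^ (2 * K)) ≤
      1600 * δ ^ (2 * K - 1) * (n : ℝ) ^ (2 * K) := by
    have : (n : ℝ) * (((n : ℝ) - (k' + 2 * K : ℕ)) ^ (2 * K)) ≤
      n * (1600 * δ ^ (2 * K - 1) * (n : ℝ) ^ (2 * K)) := by
      calc _ ≤ _ := h10
        _ = _ := by ring
    exact le_of_mul_le_mul_left this hnpos
  -- Bernoulli
  have h12 : (1 : ℝ) / 2 ≤ (1 + (-(((k' + 2 * K : ℕ) : ℝ) / n))) ^ (2 * K) := by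
    have hb := one_add_mul_le_pow (a := -(((k' + 2 * K : ℕ) : ℝ) / n)) (by
      have : ((k' + 2 * K : ℕ) : ℝ) / n ≤ 1 := by
        rw [div_le_one hnpos]; exact_mod_cast hkn
      linarith) (2 * K)
    refine le_trans ?_ hb
    have h13 : ((2 * K : ℕ) : ℝ) * (((k' + 2 * K : ℕ) : ℝ) / n) ≤ 1 / 2 := by
      rw [← mul_div_assoc, div_le_iff₀ hnpos]
      have : 4 * K * (k' + 2 * K) ≤ n := by
        have := Nat.zero_le (800 * K * k')
        omega
      have h14 : ((4 * K * (k' + 2 * K) : ℕ) : ℝ) ≤ n := by exact_mod_cast this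
      push_cast at h14 ⊢
      linarith
    linarith
  have h15 : ((n : ℝ) - (k' + 2 * K : ℕ)) = n * (1 + (-(((k' + 2 * K : ℕ) : ℝ) / n))) := by
    field_simp
    ring
  rw [h15, mul_pow] at h11
  have hnp : (0 : ℝ) < (n : ℝ) ^ (2 * K) := by positivity
  have h16 : (1 + (-(((k' + 2 * K : ℕ) : ℝ) / n))) ^ (2 * K) ≤ 1600 * δ ^ (2 * K - 1) := by
    have : (n : ℝ) ^ (2 * K) * (1 + (-(((k' + 2 * K : ℕ) : ℝ) / n))) ^ (2 * K) ≤
      (n : ℝ) ^ (2 * K) * (1600 * δ ^ (2 * K - 1)) := by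
      calc _ ≤ _ := h11
        _ = _ := by ring
    exact le_of_mul_le_mul_left this hnp
  linarith

theorem small (hF : ForceS) (hC : CountS) (hD : DihS) (hE : EvwS) : SmallS := by
  intro ε hε
  obtain ⟨K, hK, hδ⟩ := exists_K ε hε
  set δ := max (1 - ε) 0 with hδdef
  have hδ0 : 0 ≤ δ := le_max_right _ _
  set M := (4 * K).factorial with hM
  have hMpos : 0 < M := Nat.factorial_pos _
  set L := M + 1 with hL
  refine ⟨2 * L + 2 * K, 800 * K * (2 * L) + 4 * K * (2 * L + 2 * K) + 2 + 200 * (L + 1), M, ?_⟩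
  intro n hn W hW g hg hfix hsupp
  have hs2 : 2 * (L + 1) ≤ g.support.card := by
    omega
  obtain ⟨e, e', x0, hx0⟩ := hF n L g hg hs2
  -- support size
  have hsd : (g.support.card : ℝ) ≤ δ * n := by
    have h1 : (univ.filter fun x => g x = x).card + g.support.card = n := by
      have h2 : g.support = univ.filter fun x => ¬ (g x = x) := by
        ext x; simp [Perm.mem_support]
      rw [h2, Finset.card_filter_add_card_filter_not]
      simp
    have h3 : ((univ.filter fun x => g x = x).card : ℝ) + (g.support.card : ℝ) = n := by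
      exact_mod_cast h1
    have h4 : (1 - ε) * (n : ℝ) ≤ δ * n :=
      mul_le_mul_of_nonneg_right (le_max_left _ _) (Nat.cast_nonneg _)
    linarith
  -- existence of `h`
  have hex : ∃ h, W h ≠ 0 ∧ Maps e e' h ∧
      ((univ.filter fun x => Dist g (cj g h) (2 * K) x).card : ℝ) ≤ n / 200 := by
    by_contra hcon
    push Not at hcon
    have hcount := hC n (2 * L) K W hK hW g hg e e'
    have hlow : (n : ℝ) / 200 * wt W e e' ≤ (∑ h, if Maps e e' h then
        W h * ((univ.filter fun x => Dist g (cj g h) (2 * K) x).card : ℝ) else 0) := by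
      unfold wt
      rw [Finset.mul_sum]
      apply Finset.sum_le_sum
      intro h _
      split_ifs with hm
      · by_cases hw0 : W h = 0
        · rw [hw0]; simp
        · have h1 := hcon h hw0 hm
          have h2 := hW.nonneg h
          nlinarith
      · simp
    exact final_ineq n (2 * L) K g.support.card δ (wt W e e') hδ0 hK hδ hsd
      (by omega) (hW.lower (2 * L) (by omega) e e') (le_trans hlow hcount)
  obtain ⟨h, hWh, hmaps, hcard⟩ := hex
  refine ⟨h, hWh, ?_, ?_⟩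
  · intro hone
    have hdist := hx0 h hmaps
    have h1 := (hE n g (cj g h) M x0).1
    rw [hone] at h1
    have h2 : walk g (cj g h) x0 (2 * M) = walk g (cj g h) x0 0 := by
      rw [h1]; rfl
    have h3 := hdist (2 * M) (by omega) 0 (by omega) h2
    omega
  · have hb := support_bound hD n g (cj g h) hg (cj_sq g h hg) K hK
    have h1 : (((g * cj g h) ^ M).support.card : ℝ) ≤
        2 * ((univ.filter fun x => Dist g (cj g h) (2 * K) x).card : ℝ) := by
      exact_mod_cast hb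
    have h2 : (100 : ℝ) * (((g * cj g h) ^ M).support.card : ℝ) ≤ n := by linarith
    exact_mod_cast h2

end Pool.Agent.SymDiam.H52
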